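import Mathlib
import Pool.Agent.H15.NP4

set_option autoImplicit false

namespace Pool.Agent.Results.MP_8d2e9f_nt.PnotUSB

open Polynomial Filter Topology

/-- degree of a rational function -/
noncomputable def deg (f : RatFunc (AlgebraicClosure ℚ)) : ℕ :=
  max f.num.natDegree f.denom.natDegree

open Classical in
/-- action on the projective line, `none` being the point at infinity -/
noncomputable def act (f : RatFunc (AlgebraicClosure ℚ)) :
    Option (AlgebraicClosure ℚ) → Option (AlgebraicClosure ℚ)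
  | none => if f.denom.coeff (deg f) = 0 then none
      else some (f.num.coeff (deg f) / f.denom.coeff (deg f))
  | some a => if f.denom.eval a = 0 then none else some (f.num.eval a / f.denom.eval a)

/-- absolute logarithmic Weil height -/
noncomputable def ht : Option (AlgebraicClosure ℚ) → ℝ
  | none => 0
  | some a => NumberField.absLogHeight₁ a

/-- canonical height as Tate's limit -/
noncomputable def canHt (f : RatFunc (AlgebraicClosure ℚ)) (P : Option (AlgebraicClosure ℚ)) : ℝ :=
  limUnder atTop fun n : ℕ => ht ((act f)^[n] P) / (deg f : ℝ) ^ n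

def PrePer (f : RatFunc (AlgebraicClosure ℚ)) : Set (Option (AlgebraicClosure ℚ)) :=
  {P | (Set.range fun n : ℕ => (act f)^[n] P).Finite}

def Line (F : Subfield (AlgebraicClosure ℚ)) : Set (Option (AlgebraicClosure ℚ)) :=
  {P | ∀ a, P = some a → a ∈ F}

def SB (F : Subfield (AlgebraicClosure ℚ)) (f : RatFunc (AlgebraicClosure ℚ)) : Prop :=
  (∃ c : ℝ, 0 < c ∧ ∀ P ∈ Line F \ PrePer f, c ≤ canHt f P) ∧ (Line F ∩ PrePer f).Finite

def USB (F : Subfield (AlgebraicClosure ℚ)) : Prop :=
  ∀ f : RatFunc (AlgebraicClosure ℚ), 2 ≤ deg f → SB F f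

def PropP (F : Subfield (AlgebraicClosure ℚ)) : Prop :=
  ∀ f : F[X], 0 < f.natDegree →
    (∃ S : Set F, S.Infinite ∧ (fun a => f.eval a) '' S = S) → f.natDegree = 1

open Pool.Agent.H15.NP IntermediateField in
theorem result : ∃ F : Subfield (AlgebraicClosure ℚ), PropP F ∧ ¬ USB F := by
  obtain ⟨α, m, hm, hmono, H⟩ := tower
  have hmem : ∀ x, x ∈ (⨆ n, ℚ⟮α n⟯).toSubfield ↔ ∃ n, x ∈ ℚ⟮α n⟯ := by
    intro x
    rw [mem_toSubfield, ← SetLike.mem_coe, coe_iSup_of_directed hmono.directed_le, Set.mem_iUnion]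
    rfl
  refine ⟨(⨆ n, ℚ⟮α n⟯).toSubfield, ?_, ?_⟩
  · rintro f hf ⟨S, hS, hfS⟩
    by_contra hne
    set j := ((⨆ n, ℚ⟮α n⟯).toSubfield).subtype
    have hc : ∀ i, ∃ n, (f.map j).coeff i ∈ ℚ⟮α n⟯ := by
      intro i
      rw [coeff_map, ← hmem]
      exact (f.coeff i).2
    choose nn hnn using hc
    obtain ⟨n0, hn0⟩ := ((Finset.range (f.natDegree + 1)).image nn).bddAbove
    apply hS
    apply Set.Finite.of_finite_image (f := j) _ j.injective.injOn
    refine H (f.map j) n0 ?_ (by rw [natDegree_map]; omega) _ ?_ ?_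
    · intro i
      by_cases hi : i ≤ f.natDegree
      · refine hmono (show nn i ≤ n0 from hn0 ?_) (hnn i)
        simp only [Finset.coe_image, Finset.coe_range, Set.mem_image, Set.mem_Iio]
        exact ⟨i, by omega, rfl⟩
      · rw [coeff_eq_zero_of_natDegree_lt (by rw [natDegree_map]; omega)]
        exact zero_mem _
    · rintro _ ⟨x, -, rfl⟩
      exact (hmem _).mp x.2
    · rintro _ ⟨x, hx, rfl⟩
      rw [← hfS] at hx
      obtain ⟨y, hy, rfl⟩ := hx
      exact ⟨j y, ⟨y, hy, rfl⟩, by rw [eval_map, eval₂_at_apply]⟩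
  · intro hU
    set f : RatFunc (AlgebraicClosure ℚ) := algebraMap (AlgebraicClosure ℚ)[X] _ (X ^ 2) with hf
    have hnum : f.num = X ^ 2 := RatFunc.num_algebraMap _
    have hden : f.denom = 1 := RatFunc.denom_algebraMap _
    have hdeg : deg f = 2 := by simp [deg, hnum, hden]
    have hact : ∀ a, act f (some a) = some (a ^ 2) := by
      intro a; simp [act, hnum, hden]
    have hit : ∀ (k : ℕ) a, (act f)^[k] (some a) = some (a ^ 2 ^ k) := by
      intro k a
      induction k with
      | zero => simp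
      | succ k ih => rw [Function.iterate_succ_apply', ih, hact, ← pow_mul, ← pow_succ]
    obtain ⟨⟨c, hc, hcl⟩, -⟩ := hU f hdeg.ge
    obtain ⟨n, hn⟩ := exists_nat_gt (Real.log 2 / c)
    obtain ⟨hn1, hn2, hn3⟩ := hm n
    have hpow : ∀ k : ℕ, (α n ^ 2 ^ k) ^ m n = 2 ^ 2 ^ k := by
      intro k; rw [← pow_mul, mul_comm, pow_mul, hn3]
    have h1 : canHt f (some (α n)) = Real.log 2 / m n := by
      unfold canHt
      have : (fun k : ℕ => ht ((act f)^[k] (some (α n))) / (deg f : ℝ) ^ k) =
          fun _ => Real.log 2 / m n := by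
        funext k
        rw [hit, hdeg]
        show NumberField.absLogHeight₁ (α n ^ 2 ^ k) / _ = _
        rw [height_rad _ (m n) hn2 _ (hpow k)]
        push_cast
        field_simp
      rw [this]
      exact tendsto_const_nhds.limUnder_eq
    have h2 := hcl (some (α n)) ⟨?_, ?_⟩
    · rw [h1] at h2
      have h3 : (0 : ℝ) < m n := by exact_mod_cast hn2
      have h4 : (n : ℝ) ≤ m n := by exact_mod_cast hn1
      rw [div_lt_iff₀ hc] at hn
      rw [le_div_iff₀ h3] at h2
      nlinarith
    · rintro a ha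
      rw [← Option.some.inj ha, hmem]
      exact ⟨n, mem_adjoin_simple_self ℚ _⟩
    · refine Set.infinite_range_of_injective ?_
      intro k l hkl
      simp only [hit] at hkl
      have h5 := congrArg (· ^ m n) (Option.some.inj hkl)
      simp only [hpow] at h5
      have h6 : (2 : ℕ) ^ 2 ^ k = 2 ^ 2 ^ l := by exact_mod_cast h5
      exact Nat.pow_right_injective le_rfl (Nat.pow_right_injective le_rfl h6)

end Pool.Agent.Results.MP_8d2e9f_nt.PnotUSB
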